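import Mathlib

set_option autoImplicit false

namespace Pool.Agent.Results.MP_bcad5b_nt.All

open Finset

def ell (m : ℕ) : ℕ := ∑ p ∈ m.primeFactors, p ^ m.factorization p

lemma sum_le_prod (s : Finset ℕ) (f : ℕ → ℕ) (h : ∀ i ∈ s, 2 ≤ f i) : ∑ i ∈ s, f i ≤ ∏ i ∈ s, f i := by
  induction s using Finset.induction_on with
  | empty => simp
  | insert a s ha ih =>
    rw [sum_insert ha, prod_insert ha]
    have h1 := ih fun i hi => h i (mem_insert_of_mem hi)
    rcases s.eq_empty_or_nonempty with rfl | ⟨b, hb⟩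
    · simp
    · have : 2 ≤ ∑ i ∈ s, f i :=
        (h b (mem_insert_of_mem hb)).trans (single_le_sum (fun _ _ => Nat.zero_le _) hb)
      exact (Nat.add_le_add_left h1 _).trans (Nat.add_le_mul (h a (mem_insert_self _ _)) (by omega))

lemma pos_of {m p : ℕ} (h : p ∈ m.primeFactors) : m.factorization p ≠ 0 := by
  rwa [← Finsupp.mem_support_iff, Nat.support_factorization]

lemma prod_eq {m : ℕ} (h : m ≠ 0) : ∏ p ∈ m.primeFactors, p ^ m.factorization p = m :=
  Nat.prod_factorization_pow_eq_self h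

lemma ell_le {m : ℕ} (h : m ≠ 0) : ell m ≤ m :=
  (sum_le_prod _ _ fun p hp => (Nat.prime_of_mem_primeFactors hp).two_le.trans
    (Nat.le_self_pow (pos_of hp) _)).trans (prod_eq h).le

lemma ell_lcm {a b : ℕ} (ha : a ≠ 0) (hb : b ≠ 0) : ell (a.lcm b) ≤ ell a + ell b := by
  have k : ∀ m : ℕ, ∑ p ∈ (a.lcm b).primeFactors, (if p ∈ m.primeFactors then p ^ m.factorization p else 0) ≤ ell m := by
    intro m
    rw [← sum_filter]
    exact sum_le_sum_of_subset fun p hp => (mem_filter.1 hp).2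
  refine le_trans ?_ (add_le_add (k a) (k b))
  rw [← sum_add_distrib]
  refine sum_le_sum fun p hp => ?_
  have h := pos_of hp
  rw [Nat.factorization_lcm ha hb, Finsupp.sup_apply] at h ⊢
  simp only [← Nat.support_factorization, Finsupp.mem_support_iff]
  rcases le_total (a.factorization p) (b.factorization p) with c | c
  · rw [sup_eq_right.2 c] at h ⊢; simp [h]
  · rw [sup_eq_left.2 c] at h ⊢; simp [h]

lemma ell_multi (s : Multiset ℕ) (h : ∀ a ∈ s, a ≠ 0) : s.lcm ≠ 0 ∧ ell s.lcm ≤ s.sum := by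
  induction s using Multiset.induction_on with
  | empty => simp [ell]
  | cons a s ih =>
    obtain ⟨h1, h2⟩ := ih fun b hb => h b (Multiset.mem_cons_of_mem hb)
    have ha := h a (Multiset.mem_cons_self _ _)
    rw [Multiset.lcm_cons, Multiset.sum_cons, lcm_eq_nat_lcm]
    exact ⟨Nat.lcm_ne_zero ha h1, (ell_lcm ha h1).trans (add_le_add (ell_le ha) h2)⟩

def K (J : ℕ) : Finset ℕ := (range (210 * J)).filter fun k => k.Coprime 210

lemma card_le (n : ℕ) (hn : n ≠ 0) : (Set.range (orderOf : Equiv.Perm (Fin n) → ℕ)).ncard ≤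
    (Nat.log 2 n + 1) ^ 4 * #{S ∈ (K (n + 1)).powerset | ∑ k ∈ S, k ≤ n} := by
  set L := range (Nat.log 2 n + 1)
  have : Set.range (orderOf : Equiv.Perm (Fin n) → ℕ) ⊆ ↑(((L ×ˢ L ×ˢ L ×ˢ L) ×ˢ
      {S ∈ (K (n + 1)).powerset | ∑ k ∈ S, k ≤ n}).image fun x =>
        2 ^ x.1.1 * 3 ^ x.1.2.1 * 5 ^ x.1.2.2.1 * 7 ^ x.1.2.2.2 * ∏ k ∈ x.2, k) := by
    rintro _ ⟨σ, rfl⟩
    obtain ⟨h0, h1⟩ := ell_multi σ.cycleType fun a ha => by
      have := Equiv.Perm.two_le_of_mem_cycleType ha; omega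
    rw [Equiv.Perm.lcm_cycleType] at h0 h1
    have h2 : ell (orderOf σ) ≤ n := h1.trans (σ.sum_cycleType_le.trans (by simp))
    generalize orderOf σ = m at *
    have h3 : ∀ p ∈ m.primeFactors, p ^ m.factorization p ≤ n := fun p hp =>
      (single_le_sum (f := fun p => p ^ m.factorization p) (fun _ _ => Nat.zero_le _) hp).trans h2
    have h4 : ∀ p, m.factorization p ∈ L := by
      intro p
      by_cases hp : p ∈ m.primeFactors
      · exact mem_range.2 (Nat.lt_succ_of_le (Nat.le_log_of_pow_le one_lt_two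
          ((Nat.pow_le_pow_left (Nat.prime_of_mem_primeFactors hp).two_le _).trans (h3 p hp))))
      · rw [← Nat.support_factorization, Finsupp.notMem_support_iff] at hp
        simp [hp, L]
    have inj : Set.InjOn (fun p => p ^ m.factorization p) ↑({p ∈ m.primeFactors | 7 < p}) := by
      intro p hp q hq e
      have hp := (mem_filter.1 hp).1
      have hq := (mem_filter.1 hq).1
      have pp := Nat.prime_of_mem_primeFactors hp
      refine (Nat.prime_dvd_prime_iff_eq pp (Nat.prime_of_mem_primeFactors hq)).1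
        (pp.dvd_of_dvd_pow (n := m.factorization q) ?_)
      simp only at e
      rw [← e]; exact dvd_pow_self _ (pos_of hp)
    refine mem_coe.2 (mem_image.2 ⟨((m.factorization 2, m.factorization 3, m.factorization 5,
      m.factorization 7), {p ∈ m.primeFactors | 7 < p}.image fun p => p ^ m.factorization p),
      ?_, ?_⟩)
    · simp only [mem_product, h4, true_and, mem_filter, mem_powerset]
      refine ⟨fun k hk => ?_, ?_⟩
      · obtain ⟨p, hp, rfl⟩ := mem_image.1 hk
        obtain ⟨h5, h6⟩ := mem_filter.1 hp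
        have := h3 p h5
        have pp := Nat.prime_of_mem_primeFactors h5
        refine mem_filter.2 ⟨mem_range.2 (by omega), Nat.Coprime.pow_left _
          ((Nat.Prime.coprime_iff_not_dvd pp).2 fun d => ?_)⟩
        have : p ∈ (210 : ℕ).primeFactors := Nat.mem_primeFactors.2 ⟨pp, d, by norm_num⟩
        rw [show (210 : ℕ).primeFactors = {2, 3, 5, 7} by decide +kernel] at this
        simp at this; omega
      · rw [sum_image inj]
        exact (sum_le_sum_of_subset (filter_subset _ _)).trans h2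
    · simp only
      rw [prod_image inj]
      conv_rhs => rw [← prod_eq h0, ← prod_filter_not_mul_prod_filter _ (fun p => 7 < p)]
      congr 1
      rw [prod_subset (s₂ := {2, 3, 5, 7})]
      · simp [mul_assoc]
      · intro p hp
        obtain ⟨h5, h6⟩ := mem_filter.1 hp
        have pp := Nat.prime_of_mem_primeFactors h5
        have : p ≤ 7 := by omega
        interval_cases p <;> simp_all <;> norm_num at pp
      · intro p hp h
        have : p ∉ m.primeFactors := fun w => h (mem_filter.2 ⟨w, by simp at hp; omega⟩)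
        rw [← Nat.support_factorization, Finsupp.notMem_support_iff] at this
        rw [this, pow_zero]
  refine (Set.ncard_le_ncard this (finite_toSet _)).trans ?_
  rw [Set.ncard_coe_finset]
  refine card_image_le.trans (le_of_eq ?_)
  simp only [card_product, L, card_range]; ring

lemma rankin (s : Finset ℕ) (n : ℕ) {x : ℝ} (h0 : 0 < x) (h1 : x ≤ 1) :
    x ^ n * #{S ∈ s.powerset | ∑ k ∈ S, k ≤ n} ≤ Real.exp (∑ k ∈ s, (x ^ k - (x ^ k) ^ 2 / 4)) := by
  calc _ = ∑ _S ∈ {S ∈ s.powerset | ∑ k ∈ S, k ≤ n}, x ^ n := by simp [mul_comm]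
    _ ≤ ∑ S ∈ {S ∈ s.powerset | ∑ k ∈ S, k ≤ n}, ∏ k ∈ S, x ^ k := sum_le_sum fun S hS => by
        rw [prod_pow_eq_pow_sum]; exact pow_le_pow_of_le_one h0.le h1 (mem_filter.1 hS).2
    _ ≤ ∑ S ∈ s.powerset, ∏ k ∈ S, x ^ k :=
        sum_le_sum_of_subset_of_nonneg (filter_subset _ _) fun _ _ _ => by positivity
    _ = ∏ k ∈ s, (1 + x ^ k) := (prod_one_add _).symm
    _ ≤ _ := by
        rw [Real.exp_sum]
        refine prod_le_prod (fun _ _ => by positivity) fun k _ => ?_
        have a : 0 ≤ x ^ k := by positivity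
        have b : x ^ k ≤ 1 := pow_le_one₀ h0.le h1
        generalize x ^ k = y at *
        refine le_trans ?_ (Real.quadratic_le_exp_of_nonneg (by nlinarith))
        nlinarith [mul_nonneg (sq_nonneg y) (show 0 ≤ (1 - y / 4) ^ 2 - 1 / 2 by nlinarith)]

lemma refl (f : ℕ → ℝ) : ∑ r ∈ K 1, f r = ∑ r ∈ K 1, f (210 - r) := by
  have h : ∀ r ∈ K 1, 210 - r ∈ K 1 ∧ 210 - (210 - r) = r := by decide +kernel
  exact sum_nbij' (210 - ·) (210 - ·) (fun r hr => (h r hr).1) (fun r hr => (h r hr).1)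
    (fun r hr => (h r hr).2) (fun r hr => (h r hr).2) fun r hr => by rw [(h r hr).2]

lemma block {x : ℝ} (h0 : 0 < x) (h1 : x ≤ 1) (J : ℕ) :
    ∑ k ∈ K J, (x ^ k - (x ^ k) ^ 2 / 4) ≤ 24 * (1 + x ^ 210) * ∑ j ∈ range J, (x ^ 210) ^ j -
      12 * x ^ 210 * ∑ j ∈ range J, ((x ^ 210) ^ 2) ^ j := by
  have c : #(K 1) = 48 := by decide +kernel
  have e : ∀ r ∈ K 1, x ^ 210 = x ^ r * x ^ (210 - r) := fun r hr => by
    have := mem_range.1 (mem_filter.1 hr).1
    rw [← pow_add]; congr 1; omega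
  have a : ∑ r ∈ K 1, x ^ r ≤ 24 * (1 + x ^ 210) := by
    have := sum_le_card_nsmul (K 1) (fun r => x ^ r + x ^ (210 - r)) (1 + x ^ 210) fun r hr => by
      rw [e r hr]
      nlinarith [mul_nonneg (sub_nonneg.2 (pow_le_one₀ (n := r) h0.le h1))
        (sub_nonneg.2 (pow_le_one₀ (n := 210 - r) h0.le h1))]
    rw [sum_add_distrib, ← refl (x ^ ·), c, nsmul_eq_mul] at this
    push_cast at this; linarith
  have b : 48 * x ^ 210 ≤ ∑ r ∈ K 1, (x ^ r) ^ 2 := by
    have := card_nsmul_le_sum (K 1) (fun r => (x ^ r) ^ 2 + (x ^ (210 - r)) ^ 2) (2 * x ^ 210)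
      fun r hr => by rw [e r hr]; nlinarith [sq_nonneg (x ^ r - x ^ (210 - r))]
    rw [sum_add_distrib, ← refl (fun r => (x ^ r) ^ 2), c, nsmul_eq_mul] at this
    push_cast at this; linarith
  induction J with
  | zero => simp [K]
  | succ J ih =>
    have : ∑ k ∈ K (J + 1), (x ^ k - (x ^ k) ^ 2 / 4) = ∑ k ∈ K J, (x ^ k - (x ^ k) ^ 2 / 4) +
        ((x ^ 210) ^ J * ∑ r ∈ K 1, x ^ r - ((x ^ 210) ^ 2) ^ J / 4 * ∑ r ∈ K 1, (x ^ r) ^ 2) := by
      rw [mul_sum, mul_sum, ← sum_sub_distrib]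
      simp only [K, sum_filter, mul_add, mul_one, sum_range_add, Nat.coprime_mul_left_add_left]
      congr 1
      refine sum_congr rfl fun r _ => ?_
      split_ifs
      · ring
      · rfl
    rw [this, sum_range_succ, sum_range_succ]
    have p : 0 ≤ (x ^ 210) ^ J := by positivity
    have q : 0 ≤ ((x ^ 210) ^ 2) ^ J := by positivity
    nlinarith [mul_le_mul_of_nonneg_left a p, mul_le_mul_of_nonneg_left b q]

lemma geo {u : ℝ} (h0 : 0 < u) (h1 : u ≤ 3 / 5) (J : ℕ) :
    24 * (1 + Real.exp (-u)) * ∑ j ∈ range J, Real.exp (-u) ^ j -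
      12 * Real.exp (-u) * ∑ j ∈ range J, (Real.exp (-u) ^ 2) ^ j ≤ 42 / u + 4 := by
  have a := Real.sum_le_exp_of_nonneg h0.le 4
  have b := Real.exp_bound (x := u) (by rw [abs_of_pos h0]; linarith) (n := 3) (by norm_num)
  have c := Real.exp_bound (x := -u) (by rw [abs_neg, abs_of_pos h0]; linarith) (n := 3)
    (by norm_num)
  simp only [sum_range_succ, range_zero, sum_empty, Nat.factorial, abs_neg, abs_of_pos h0] at a b c
  norm_num at a b c
  have b := (abs_le.1 b).2
  have c := (abs_le.1 c).1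
  have e : Real.exp u * Real.exp (-u) = 1 := by rw [← Real.exp_add]; simp
  have w0 := Real.exp_pos (-u)
  have w1 : Real.exp (-u) < 1 := by rw [Real.exp_lt_one_iff]; linarith
  generalize Real.exp u = v at *
  generalize Real.exp (-u) = w at *
  have u2 : 0 < u ^ 2 := by positivity
  have u3 : 0 < u ^ 3 := by positivity
  have w2 : w ^ 2 < 1 := by nlinarith
  rw [geom_sum_eq w1.ne, geom_sum_eq w2.ne, ← pow_mul, mul_comm 2, pow_mul]
  have q0 : 0 ≤ w ^ J := by positivity
  have q1 : w ^ J ≤ 1 := pow_le_one₀ w0.le w1.le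
  generalize w ^ J = q at *
  have k1 : 24 * (1 + w) / (1 - w) ≤ 48 / u + 3 := by
    rw [div_add' _ _ _ h0.ne', div_le_div_iff₀ (by linarith) h0]
    have : 24 * (v + 1) * u ≤ (48 + 3 * u) * (v - 1) := by nlinarith
    have := mul_le_mul_of_nonneg_left this w0.le
    nlinarith
  have k2 : 6 / u - 1 ≤ 12 * w / (1 - w ^ 2) := by
    rw [div_sub' h0.ne', div_le_div_iff₀ h0 (by linarith)]
    have : (6 - u) * (v - w) ≤ 12 * u := by nlinarith
    have := mul_le_mul_of_nonneg_left this w0.le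
    nlinarith
  have k3 : 24 * (1 + w) / (1 - w) - 12 * w / (1 - w ^ 2) - (24 * (1 + w) * ((q - 1) / (w - 1)) -
      12 * w * ((q ^ 2 - 1) / (w ^ 2 - 1))) = 12 * q * (2 * (1 + w) ^ 2 - w * q) / (1 - w ^ 2) := by
    have : w - 1 ≠ 0 := by linarith
    have : 1 - w ≠ 0 := by linarith
    have : w ^ 2 - 1 ≠ 0 := by linarith
    have : 1 - w ^ 2 ≠ 0 := by linarith
    field_simp; ring
  have k4 : 0 ≤ 12 * q * (2 * (1 + w) ^ 2 - w * q) / (1 - w ^ 2) :=
    div_nonneg (mul_nonneg (by positivity) (by nlinarith)) (by linarith)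
  have : 42 / u = 48 / u - 6 / u := by ring
  linarith

lemma logb (n : ℕ) (hn : 25000 ≤ n) : 10 * (Nat.log 2 n + 1) ^ 4 ≤ 21 * n := by
  have h := Nat.pow_log_le_self 2 (show n ≠ 0 by omega)
  generalize Nat.log 2 n = L at *
  rcases le_or_gt L 14 with c | c
  · have : (L + 1) ^ 4 ≤ 15 ^ 4 := Nat.pow_le_pow_left (by omega) _
    omega
  · have : (L + 1) ^ 4 ≤ 2 * 2 ^ L := by
      clear h
      induction L, c using Nat.le_induction with
      | base => norm_num
      | succ L c ih =>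
        have : (L + 1 + 1) ^ 4 ≤ 2 * (L + 1) ^ 4 := by
          obtain ⟨k, rfl⟩ := Nat.exists_eq_add_of_le c
          ring_nf; omega
        rw [pow_succ 2]; omega
    omega

lemma large (n : ℕ) (hn : 25000 ≤ n) :
    ((Set.range (orderOf : Equiv.Perm (Fin n) → ℕ)).ncard : ℝ) ≤ Real.exp √n := by
  have s1 : (158 : ℝ) ≤ √n := Real.le_sqrt_of_sq_le (by exact_mod_cast (by omega : 158 ^ 2 ≤ n))
  have s2 : √n ^ 2 = n := Real.sq_sqrt (Nat.cast_nonneg _)
  have h1 : _ ≤ ((_ : ℕ) : ℝ) := Nat.cast_le.2 (card_le n (by omega))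
  have h2 : ((_ : ℕ) : ℝ) ≤ ((_ : ℕ) : ℝ) := Nat.cast_le.2 (logb n hn)
  generalize √n = s at *
  have s0 : 0 < s := by linarith
  have x0 := Real.exp_pos (-(9 / 20 / s))
  have x1 : Real.exp (-(9 / 20 / s)) ≤ 1 := by
    rw [Real.exp_le_one_iff, neg_nonpos]; positivity
  have h3 := rankin (K (n + 1)) n x0 x1
  have h4 := block x0 x1 (n + 1)
  have h5 := geo (u := 189 / 2 / s) (by positivity) (by rw [div_le_iff₀ s0]; linarith) (n + 1)
  rw [← Real.exp_nat_mul _ 210, show ((210 : ℕ) : ℝ) * -(9 / 20 / s) = -(189 / 2 / s) by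
    push_cast; ring] at h4
  rw [show 42 / (189 / 2 / s) = 4 / 9 * s by field_simp; ring] at h5
  have h6 := h3.trans (Real.exp_le_exp.2 (h4.trans h5))
  rw [← Real.exp_nat_mul, ← s2, show s ^ 2 * -(9 / 20 / s) = -(9 / 20 * s) by field_simp,
    Real.exp_neg, inv_mul_le_iff₀ (Real.exp_pos _), ← Real.exp_add] at h6
  have h7 : (400 : ℝ) ≤ Real.exp 6 := by
    have := pow_le_pow_left₀ (by norm_num) Real.exp_one_gt_d9.le 6
    rw [← Real.exp_nat_mul] at this
    norm_num at this ⊢; linarith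
  have h8 : 3 / 2 * s ≤ Real.exp (19 / 360 * s - 2) := by
    have := Real.add_one_le_exp (19 / 360 * s - 8)
    rw [show 19 / 360 * s - 2 = 6 + (19 / 360 * s - 8) by ring, Real.exp_add]
    nlinarith
  have h9 : Real.exp s = Real.exp (19 / 360 * s - 2) ^ 2 * Real.exp (9 / 20 * s + (4 / 9 * s + 4)) := by
    rw [← Real.exp_nat_mul, ← Real.exp_add]; congr 1; push_cast; ring
  rw [h9]
  push_cast at h1 h2
  refine h1.trans (mul_le_mul ?_ h6 (by positivity) (by positivity))
  nlinarith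

def w (p a : ℕ) : ℕ := if a = 0 then 0 else p ^ a

def T : List ℕ → ℕ → Finset ℕ
  | [], _ => {1}
  | p :: P, n => (range 15).biUnion fun a =>
      if w p a ≤ n then (T P (n - w p a)).image (p ^ a * ·) else ∅

def C : List ℕ → ℕ → ℕ
  | [], _ => 1
  | p :: P, n => ∑ a ∈ range 15, if w p a ≤ n then C P (n - w p a) else 0

lemma card_T : ∀ P n, #(T P n) ≤ C P n
  | [], _ => by simp [T, C]
  | p :: P, n => card_biUnion_le.trans (sum_le_sum fun a _ => by
      split_ifs
      · exact card_image_le.trans (card_T P _)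
      · simp)

lemma mem_T : ∀ (P : List ℕ) (n m : ℕ), n < 2 ^ 15 → m ≠ 0 → (∀ q ∈ m.primeFactors, q ∈ P) →
    ell m ≤ n → m ∈ T P n
  | [], n, m, _, h0, h, _ => by
    have : m.primeFactors = ∅ := eq_empty_of_forall_notMem fun q hq => by simpa using h q hq
    rw [Nat.primeFactors_eq_empty] at this
    simp only [T, mem_singleton]; omega
  | p :: P, n, m, hn, h0, h, h1 => by
    have f := Nat.factorization_ordCompl m p
    have pf : (m / p ^ m.factorization p).primeFactors = m.primeFactors.erase p := by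
      rw [← Nat.support_factorization, f, Finsupp.support_erase, Nat.support_factorization]
    have e : ell m = w p (m.factorization p) + ell (m / p ^ m.factorization p) := by
      have : ell (m / p ^ m.factorization p) =
          ∑ q ∈ m.primeFactors.erase p, q ^ m.factorization q := by
        rw [ell, pf]
        exact sum_congr rfl fun q hq => by rw [f, Finsupp.erase_ne (mem_erase.1 hq).1]
      rw [this, w]
      by_cases hp : p ∈ m.primeFactors
      · rw [if_neg (pos_of hp), ell, add_sum_erase _ (fun q => q ^ m.factorization q) hp]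
      · rw [erase_eq_of_notMem hp]
        rw [← Nat.support_factorization, Finsupp.notMem_support_iff] at hp
        rw [if_pos hp, zero_add, ell]
    refine mem_biUnion.2 ⟨m.factorization p, mem_range.2 ?_, ?_⟩
    · by_contra c
      have p2 : 2 ≤ p := (Nat.prime_of_mem_primeFactors (n := m) (by
        rw [← Nat.support_factorization, Finsupp.mem_support_iff]; omega)).two_le
      have := (Nat.pow_le_pow_right two_pos (not_lt.1 c)).trans (Nat.pow_le_pow_left p2 _)
      rw [w, if_neg (by omega)] at e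
      omega
    · rw [if_pos (by omega)]
      refine mem_image.2 ⟨_, mem_T P _ _ (by omega) (Nat.ordCompl_pos p h0).ne' (fun q hq => ?_)
        (by omega), Nat.ordProj_mul_ordCompl_eq_self m p⟩
      rw [pf, mem_erase] at hq
      exact (List.mem_cons.1 (h q hq.2)).resolve_left hq.1

def M : ℕ := 35375166993717494840635767087951744212057570647889977422429870

def PL (N : ℕ) : List ℕ := (List.range (N + 1)).filter fun k =>
  2 ≤ k && if k ≤ 158 then Nat.gcd k (k - 1).factorial == 1 else Nat.gcd k M == 1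

lemma o_le {n N : ℕ} (h : n ≤ N) (hN : N < 2 ^ 15) :
    (Set.range (orderOf : Equiv.Perm (Fin n) → ℕ)).ncard ≤ C (PL N) n := by
  refine le_trans ?_ (card_T _ _)
  rw [← Set.ncard_coe_finset]
  refine Set.ncard_le_ncard ?_ (finite_toSet _)
  rintro _ ⟨σ, rfl⟩
  obtain ⟨h0, h1⟩ := ell_multi σ.cycleType fun a ha => by
    have := Equiv.Perm.two_le_of_mem_cycleType ha; omega
  rw [Equiv.Perm.lcm_cycleType] at h0 h1
  have h2 : ell (orderOf σ) ≤ n := h1.trans (σ.sum_cycleType_le.trans (by simp))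
  refine mem_T _ _ _ (by omega) h0 (fun q hq => ?_) h2
  have pp := Nat.prime_of_mem_primeFactors hq
  have : q ≤ n := (Nat.le_self_pow (pos_of hq) _).trans ((single_le_sum
    (f := fun p => p ^ (orderOf σ).factorization p) (fun _ _ => Nat.zero_le _) hq).trans h2)
  have k : ∀ j < q, q.Coprime j.factorial := fun j hj =>
    (Nat.Prime.coprime_iff_not_dvd pp).2 fun d => by rw [pp.dvd_factorial] at d; omega
  have p2 := pp.two_le
  simp only [PL, List.mem_filter, List.mem_range, Bool.and_eq_true, decide_eq_true_eq]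
  refine ⟨by omega, p2, ?_⟩
  split_ifs with c
  · exact beq_iff_eq.2 (k _ (by omega))
  · exact beq_iff_eq.2 ((k 158 (by omega)).coprime_dvd_right (by decide +kernel))

def up (N j : ℕ) : List ℕ → ℕ → ℕ
  | [], F => F
  | p :: P, F =>
    let G := F * (∑ a ∈ range 15, if w p a ≤ N then
      2 ^ 64 * (1024 - j) ^ w p a / 1024 ^ w p a + 1 else 0) / 2 ^ 64 + 1
    if G = 0 then up N j P G else up N j P G

lemma lt_div (a b : ℕ) (hb : 0 < b) : (a : ℝ) / b ≤ (a / b + 1 : ℕ) := by
  rw [div_le_iff₀ (by positivity)]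
  exact_mod_cast (Nat.lt_div_mul_add hb).le.trans_eq (by ring)

lemma up_step (N j p n F U : ℕ) (c : ℕ → ℕ) (x : ℝ) (hx : x = ((1024 - j : ℕ) : ℝ) / 1024) (Y : ℕ)
    (hY : Y = ∑ a ∈ range 15, if w p a ≤ N then
      2 ^ 64 * (1024 - j) ^ w p a / 1024 ^ w p a + 1 else 0) (h : n ≤ N)
    (ih : ∀ m ≤ N, (F * Y / 2 ^ 64 + 1 : ℕ) * (c m * x ^ m) ≤ U) :
    F * ((∑ a ∈ range 15, if w p a ≤ n then c (n - w p a) else 0 : ℕ) * x ^ n) ≤ U := by
  have h1 := lt_div (F * Y) (2 ^ 64) (by positivity)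
  have hG0 : (0 : ℝ) < (F * Y / 2 ^ 64 + 1 : ℕ) := by positivity
  generalize F * Y / 2 ^ 64 + 1 = G at *
  rw [Nat.cast_mul, Nat.cast_pow, Nat.cast_two] at h1
  have x0 : 0 ≤ x := by rw [hx]; positivity
  have h2 : ((∑ a ∈ range 15, if w p a ≤ n then c (n - w p a) else 0 : ℕ) : ℝ) * x ^ n * G ≤
      Y / 2 ^ 64 * U := by
    rw [hY, Nat.cast_sum, Nat.cast_sum, sum_mul, sum_mul, sum_div, sum_mul]
    refine sum_le_sum fun a _ => ?_
    by_cases d : w p a ≤ n
    · rw [if_pos d, if_pos (d.trans h)]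
      have a1 := ih (n - w p a) (by omega)
      have a2 := lt_div (2 ^ 64 * (1024 - j) ^ w p a) (1024 ^ w p a) (by positivity)
      generalize 2 ^ 64 * (1024 - j) ^ w p a / 1024 ^ w p a + 1 = Z at *
      rw [Nat.cast_mul, Nat.cast_pow, Nat.cast_pow, Nat.cast_pow, mul_div_assoc, ← div_pow,
        Nat.cast_two, Nat.cast_ofNat, ← hx, ← le_div_iff₀' (by positivity)] at a2
      calc _ = x ^ w p a * (G * (c (n - w p a) * x ^ (n - w p a))) := by
            conv_lhs => rw [← Nat.add_sub_of_le d, pow_add, Nat.add_sub_of_le d]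
            ring
        _ ≤ _ := mul_le_mul a2 a1 (mul_nonneg (Nat.cast_nonneg _) (mul_nonneg (Nat.cast_nonneg _)
            (pow_nonneg x0 _))) (div_nonneg (Nat.cast_nonneg _) (pow_nonneg zero_le_two _))
    · rw [if_neg d, Nat.cast_zero, zero_mul, zero_mul]
      exact mul_nonneg (div_nonneg (Nat.cast_nonneg _) (pow_nonneg zero_le_two _)) (Nat.cast_nonneg _)
  refine le_of_mul_le_mul_right ?_ hG0
  generalize ((∑ a ∈ range 15, if w p a ≤ n then c (n - w p a) else 0 : ℕ) : ℝ) = S at *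
  calc _ = F * (S * x ^ n * G) := by ring
    _ ≤ F * (Y / 2 ^ 64 * U) := mul_le_mul_of_nonneg_left h2 (Nat.cast_nonneg _)
    _ = F * Y / 2 ^ 64 * U := by ring
    _ ≤ _ := by rw [mul_comm]; exact mul_le_mul_of_nonneg_left h1 (Nat.cast_nonneg _)

lemma up_ge (N j : ℕ) (P : List ℕ) : ∀ (n F : ℕ), n ≤ N →
    F * (C P n * (((1024 - j : ℕ) : ℝ) / 1024) ^ n) ≤ up N j P F := by
  induction P with
  | nil =>
    intro n F _
    rw [C, up, Nat.cast_one, one_mul]
    refine mul_le_of_le_one_right (by positivity) (pow_le_one₀ (by positivity) ?_)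
    rw [div_le_one (by norm_num)]; exact_mod_cast Nat.sub_le _ _
  | cons p P ih =>
    intro n F h
    rw [C, up, ite_self]
    exact up_step N j p n F _ (C P) _ rfl _ rfl h fun m hm => ih m _ hm

lemma expc {a b n j : ℕ} (h1 : j * j ≤ 256 * n) (h2 : a * 512 ^ j ≤ b * 545 ^ j) :
    (a : ℝ) ≤ b * Real.exp √n := by
  have e1 : (545 / 512 : ℝ) ≤ Real.exp (1 / 16) :=
    le_trans (by norm_num) (Real.quadratic_le_exp_of_nonneg (by norm_num))
  have e2 := pow_le_pow_left₀ (by norm_num) e1 j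
  rw [← Real.exp_nat_mul] at e2
  have e3 : (j : ℝ) * (1 / 16) ≤ √n := Real.le_sqrt_of_sq_le (by
    have : (j : ℝ) * j ≤ 256 * n := by exact_mod_cast h1
    nlinarith)
  have e4 : (a : ℝ) ≤ b * (545 / 512) ^ j := by
    rw [div_pow, ← mul_div_assoc, le_div_iff₀ (by positivity)]; exact_mod_cast h2
  exact e4.trans (mul_le_mul_of_nonneg_left (e2.trans (Real.exp_le_exp.2 e3)) (by positivity))

def chk (j F n i : ℕ) : Bool := i * i ≤ 256 * n &&
  F * 1024 ^ n * 512 ^ i ≤ 2 ^ 64 * (1024 - j) ^ n * 545 ^ i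

lemma mid {j N a n ia ib : ℕ} (hj : j < 1024) (hN : N < 2 ^ 15) (h1 : a ≤ n) (h2 : n ≤ N)
    (h : (chk j (up N j (PL N) (2 ^ 64)) a ia && chk j (up N j (PL N) (2 ^ 64)) N ib) = true) :
    ((Set.range (orderOf : Equiv.Perm (Fin n) → ℕ)).ncard : ℝ) ≤ Real.exp √n := by
  refine le_trans (Nat.cast_le.2 (o_le h2 hN)) ?_
  have h3 := up_ge N j (PL N) n (2 ^ 64) h2
  generalize up N j (PL N) (2 ^ 64) = F at *
  set x : ℝ := ((1024 - j : ℕ) : ℝ) / 1024 with hx
  have x0 : 0 < x := div_pos (by exact_mod_cast (by omega)) (by norm_num)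
  have x1 : x ≤ 1 := by rw [hx, div_le_one (by norm_num)]; exact_mod_cast Nat.sub_le _ _
  have k : ∀ m i, chk j F m i = true → (F : ℝ) / 2 ^ 64 ≤ Real.exp (√m ^ 2 * Real.log x + √m) := by
    intro m i h
    simp only [chk, Bool.and_eq_true, decide_eq_true_eq] at h
    have := expc h.1 h.2
    rw [Real.sq_sqrt (Nat.cast_nonneg _), Real.exp_add, Real.exp_nat_mul, Real.exp_log x0, hx,
      div_pow, div_mul_eq_mul_div, div_le_div_iff₀ (by positivity) (by positivity)]
    rw [Nat.cast_mul, Nat.cast_mul, Nat.cast_pow, Nat.cast_pow, Nat.cast_pow] at this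
    push_cast at this ⊢
    linarith
  rw [Bool.and_eq_true] at h
  have k1 := k _ _ h.1
  have k2 := k _ _ h.2
  have t := Real.log_nonpos x0.le x1
  have s1 : √a ≤ √n := Real.sqrt_le_sqrt (by exact_mod_cast h1)
  have s2 : √n ≤ √N := Real.sqrt_le_sqrt (by exact_mod_cast h2)
  have k3 : (F : ℝ) / 2 ^ 64 ≤ Real.exp (√n ^ 2 * Real.log x + √n) := by
    rcases le_total 0 (1 + Real.log x * (√n + √a)) with c | c
    · exact k1.trans (Real.exp_le_exp.2 (by nlinarith [mul_nonneg (sub_nonneg.2 s1) c]))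
    · have c' : 0 ≤ -(1 + Real.log x * (√n + √N)) := by nlinarith
      exact k2.trans (Real.exp_le_exp.2 (by nlinarith [mul_nonneg (sub_nonneg.2 s2) c']))
  rw [Real.sq_sqrt (Nat.cast_nonneg _), Real.exp_add, Real.exp_nat_mul, Real.exp_log x0,
    div_le_iff₀ (by positivity)] at k3
  push_cast at h3
  have := pow_pos x0 n
  nlinarith

def val (f : ℕ → ℕ) (N : ℕ) : ℕ := ∑ k ∈ range N, f k * (2 ^ 64) ^ k

lemma dig : ∀ (N : ℕ) (f : ℕ → ℕ) (R : ℕ), (∀ k < N, f k < 2 ^ 64) →
    R ≡ val f N [MOD (2 ^ 64) ^ N] → ∀ k < N, R / (2 ^ 64) ^ k % 2 ^ 64 = f k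
  | 0, _, _, _, _, _, h => by omega
  | N + 1, f, R, h1, h2, k, hk => by
    have e : val f (N + 1) = 2 ^ 64 * val (fun k => f (k + 1)) N + f 0 := by
      rw [val, sum_range_succ', val, mul_sum]
      congr 1
      · exact sum_congr rfl fun _ _ => by ring
      · simp
    rw [e, pow_succ'] at h2
    have h0 : R % 2 ^ 64 = f 0 := by
      have := h2.of_mul_right _
      rwa [Nat.ModEq, Nat.mul_add_mod, Nat.mod_eq_of_lt (h1 0 (by omega))] at this
    cases k with
    | zero => simpa using h0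
    | succ k =>
      rw [pow_succ', ← Nat.div_div_eq_div_mul]
      refine dig N (fun k => f (k + 1)) _ (fun k hk => h1 _ (by omega)) ?_ k (by omega)
      rw [← Nat.div_add_mod R (2 ^ 64), h0] at h2
      exact (h2.add_right_cancel' _).mul_left_cancel' (by positivity)

lemma shiftv (f : ℕ → ℕ) (N : ℕ) : ∀ v, val f (N + 1) * (2 ^ 64) ^ v ≡
    val (fun k => if v ≤ k then f (k - v) else 0) (N + 1) [MOD (2 ^ 64) ^ (N + 1)]
  | 0 => by simp [Nat.ModEq]
  | v + 1 => by
    rw [pow_succ _ v, ← mul_assoc]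
    refine ((shiftv f N v).mul_right _).trans ?_
    rw [val, val, sum_range_succ, sum_range_succ', add_mul, mul_assoc, ← pow_succ, sum_mul]
    simp only [add_le_add_iff_right, Nat.add_sub_add_right, mul_assoc, ← pow_succ]
    refine Nat.ModEq.add_left _ ?_
    rw [if_neg (show ¬ v + 1 ≤ 0 by omega), zero_mul, Nat.modEq_zero_iff_dvd]
    exact Dvd.intro_left _ rfl

def go : List ℕ → ℕ → ℕ
  | [], R => R
  | p :: P, R =>
    let G := (∑ a ∈ range 15, if w p a ≤ 1300 then R * (2 ^ 64) ^ w p a else 0) % (2 ^ 64) ^ 1301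
    if G = 0 then go P G else go P G

lemma go_eq : ∀ (P Q : List ℕ) (R : ℕ), R ≡ val (C Q) 1301 [MOD (2 ^ 64) ^ 1301] →
    go P R ≡ val (C (P.reverseAux Q)) 1301 [MOD (2 ^ 64) ^ 1301]
  | [], _, _, h => h
  | p :: P, Q, R, h => by
    simp only [go, ite_self, List.reverseAux]
    refine go_eq P _ _ ((Nat.mod_modEq _ _).trans ?_)
    have : val (C (p :: Q)) 1301 = ∑ a ∈ range 15,
        val (fun k => if w p a ≤ k then C Q (k - w p a) else 0) 1301 := by
      simp only [val, C, sum_mul]; exact sum_comm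
    rw [this]
    refine Nat.ModEq.sum fun a _ => ?_
    split_ifs with c
    · exact (h.mul_right _).trans (shiftv _ 1300 _)
    · rw [val, sum_eq_zero fun k hk => by rw [if_neg (by have := mem_range.1 hk; omega), zero_mul]]

def nt (m : ℕ) : ℕ → ℕ → ℕ
  | 0, y => if y * y ≤ m then y else y - 1
  | f + 1, y => nt m f ((y + m / y) / 2)

lemma low : (List.range 1301).all (fun n => nt (256 * n) 12 600 * nt (256 * n) 12 600 ≤ 256 * n &&
    go (PL 3500).reverse (((2 ^ 64) ^ 1301 - 1) / (2 ^ 64 - 1)) / (2 ^ 64) ^ n % 2 ^ 64 *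
      512 ^ nt (256 * n) 12 600 ≤ 1 * 545 ^ nt (256 * n) 12 600) = true := by decide +kernel

theorem result (n : ℕ) :
    ((Set.range (orderOf : Equiv.Perm (Fin n) → ℕ)).ncard : ℝ) ≤ Real.exp √n := by
  rcases le_total 25000 n with h1 | h1
  · exact large n h1
  rcases le_total 3500 n with h2 | h2
  · exact mid (j := 4) (ia := 946) (ib := 2529) (by norm_num) (by norm_num) h2 h1 (by decide +kernel)
  rcases le_total 1300 n with h3 | h3
  · exact mid (j := 10) (ia := 576) (ib := 946) (by norm_num) (by norm_num) h3 h2 (by decide +kernel)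
  refine le_trans (Nat.cast_le.2 (o_le h2 (by norm_num))) ?_
  have a := go_eq (PL 3500).reverse [] (((2 ^ 64) ^ 1301 - 1) / (2 ^ 64 - 1)) (by
    rw [← Nat.geomSum_eq (by norm_num)]; simp only [val, C, one_mul]; rfl)
  rw [List.reverseAux_eq, List.reverse_reverse, List.append_nil] at a
  have b := dig 1301 _ _ (fun k hk => ?_) a n (by omega)
  · have c := List.all_eq_true.1 low n (List.mem_range.2 (by omega))
    rw [Bool.and_eq_true, decide_eq_true_eq, decide_eq_true_eq, b] at c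
    have := expc c.1 c.2
    rwa [Nat.cast_one, one_mul] at this
  · have c := up_ge 3500 10 (PL 3500) k (2 ^ 64) (by omega)
    have d : up 3500 10 (PL 3500) (2 ^ 64) * 1024 ^ 1300 < 2 ^ 64 * 2 ^ 64 * 1014 ^ 1300 := by
      decide +kernel
    have d : (up 3500 10 (PL 3500) (2 ^ 64) : ℝ) < 2 ^ 64 * (2 ^ 64 * (1014 / 1024) ^ 1300) := by
      rw [div_pow, ← mul_assoc, ← mul_div_assoc, lt_div_iff₀ (by positivity)]; exact_mod_cast d
    have e : ((1014 : ℝ) / 1024) ^ 1300 ≤ (1014 / 1024) ^ k :=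
      pow_le_pow_of_le_one (by norm_num) (by norm_num) (by omega)
    have p : (0 : ℝ) < (1014 / 1024) ^ k := by positivity
    rw [show ((1024 - 10 : ℕ) : ℝ) = 1014 by norm_num, Nat.cast_pow, Nat.cast_two] at c
    have f := lt_of_mul_lt_mul_left (c.trans_lt d) (by positivity)
    have g := lt_of_mul_lt_mul_right (f.trans_le (mul_le_mul_of_nonneg_left e (by positivity))) p.le
    exact_mod_cast g

end Pool.Agent.Results.MP_bcad5b_nt.All
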